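import Pool.Agent.Q274.GM.Pair

/-!
# The grammic monoid of rank `n` is not finitely presented for every `n ≥ 5`
-/

namespace Pool.Agent.Results.MP_be768e_al.NotFinitelyPresented

open Pool.Agent.Q274.GM

/-- `phi p q w` is the largest length of a weakly increasing scattered subsequence of `w`
all of whose letters lie in `[p, q]`. -/
noncomputable def phi {n : ℕ} (p q : Fin n) (w : List (Fin n)) : ℕ :=
  sSup {m : ℕ | ∃ s : List (Fin n), s.Sublist w ∧ s.Pairwise (· ≤ ·) ∧
    (∀ x ∈ s, p ≤ x ∧ x ≤ q) ∧ s.length = m}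

theorem phi_le_iff {n : ℕ} (p q : Fin n) (w : List (Fin n)) (m : ℕ) :
    phi p q w ≤ m ↔ U p.val q.val m (w.map Fin.val) := by
  have hne : {m : ℕ | ∃ s : List (Fin n), s.Sublist w ∧ s.Pairwise (· ≤ ·) ∧
    (∀ x ∈ s, p ≤ x ∧ x ≤ q) ∧ s.length = m}.Nonempty :=
    ⟨0, [], List.nil_sublist _, List.Pairwise.nil, by simp, rfl⟩
  have hbd : BddAbove {m : ℕ | ∃ s : List (Fin n), s.Sublist w ∧ s.Pairwise (· ≤ ·) ∧
    (∀ x ∈ s, p ≤ x ∧ x ≤ q) ∧ s.length = m} :=
    ⟨w.length, by rintro m ⟨s, hs, -, -, rfl⟩; exact hs.length_le⟩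
  unfold phi
  rw [csSup_le_iff hbd hne]
  constructor
  · intro h s hs
    obtain ⟨s', hs', rfl⟩ := List.sublist_map_iff.1 hs.1
    rw [List.length_map]
    refine h _ ⟨s', hs', ?_, ?_, rfl⟩
    · have := hs.2.1
      rw [List.pairwise_map] at this
      exact this
    · intro x hx
      exact hs.2.2 x.val (List.mem_map_of_mem hx)
  · rintro h m ⟨s, hs, h1, h2, rfl⟩
    have := h (s.map Fin.val) ⟨hs.map _, by rw [List.pairwise_map]; exact h1, by
      intro x hx
      obtain ⟨y, hy, rfl⟩ := List.mem_map.1 hx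
      exact h2 y hy⟩
    rwa [List.length_map] at this

theorem gramEq_iff {n : ℕ} (u v : List (Fin n)) :
    (∀ p q : Fin n, p ≤ q → phi p q u = phi p q v) ↔ G (u.map Fin.val) (v.map Fin.val) := by
  constructor
  · intro h p q m
    have hb : ∀ w : List (Fin n), ∀ x ∈ w.map Fin.val, x ≤ n - 1 := by
      intro w x hx
      obtain ⟨y, _, rfl⟩ := List.mem_map.1 hx
      have := y.isLt
      omega
    rw [U_min (hb u), U_min (hb v)]
    rcases lt_or_ge (min q (n - 1)) p with h1 | h1
    · exact ⟨fun _ => U_triv h1, fun _ => U_triv h1⟩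
    · rcases Nat.eq_zero_or_pos n with hn | hn
      · subst hn
        have e : ∀ w : List (Fin 0), w = [] := by
          intro w
          cases w with
          | nil => rfl
          | cons a w => exact a.elim0
        rw [e u, e v]
      · have h2 : min q (n - 1) < n := lt_of_le_of_lt (min_le_right _ _) (by omega)
        have := h ⟨p, lt_of_le_of_lt h1 h2⟩ ⟨min q (n - 1), h2⟩ h1
        rw [← phi_le_iff ⟨p, lt_of_le_of_lt h1 h2⟩ ⟨min q (n - 1), h2⟩ u m,
          ← phi_le_iff ⟨p, lt_of_le_of_lt h1 h2⟩ ⟨min q (n - 1), h2⟩ v m, this]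
  · intro h p q _
    apply le_antisymm
    · rw [phi_le_iff, h, ← phi_le_iff]
    · rw [phi_le_iff, ← h, ← phi_le_iff]

/-- The grammic congruence of rank `n`. -/
noncomputable def gram (n : ℕ) : Con (FreeMonoid (Fin n)) where
  r u v := ∀ p q : Fin n, p ≤ q → phi p q u.toList = phi p q v.toList
  iseqv := ⟨fun _ _ _ _ => rfl, fun h p q hpq => (h p q hpq).symm,
    fun h h' p q hpq => (h p q hpq).trans (h' p q hpq)⟩
  mul' := by
    intro a b c d h1 h2
    rw [gramEq_iff] at h1 h2 ⊢
    rw [FreeMonoid.toList_mul, FreeMonoid.toList_mul, List.map_append, List.map_append]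
    have e1 := h1.ctx [] (c.toList.map Fin.val)
    have e2 := h2.ctx (b.toList.map Fin.val) []
    simp only [List.nil_append, List.append_nil] at e1 e2
    exact e1.trans e2

theorem gram_iff {n : ℕ} (u v : FreeMonoid (Fin n)) :
    gram n u v ↔ G (u.toList.map Fin.val) (v.toList.map Fin.val) :=
  gramEq_iff u.toList v.toList

/-- A monoid is finitely presented if it is isomorphic to `⟨A | R⟩` with `A` and `R` finite. -/
def FinitelyPresented (M : Type*) [Monoid M] : Prop :=
  ∃ (A : Type) (R : Set (FreeMonoid A × FreeMonoid A)), Finite A ∧ R.Finite ∧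
    Nonempty ((conGen fun x y => (x, y) ∈ R).Quotient ≃* M)

/-- If a quotient of a finitely generated free monoid is finitely presented, then the
congruence is finitely generated. -/
theorem finite_generation {B : Type} [Finite B] (c : Con (FreeMonoid B))
    (h : FinitelyPresented c.Quotient) :
    ∃ S : Set (FreeMonoid B × FreeMonoid B), S.Finite ∧ conGen (fun x y => (x, y) ∈ S) = c := by
  obtain ⟨A, R, hA, hR, ⟨e⟩⟩ := h
  have hf : ∀ a : A, ∃ x : FreeMonoid B, (x : c.Quotient) =
      e ((FreeMonoid.of a : FreeMonoid A) : (conGen fun x y => (x, y) ∈ R).Quotient) :=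
    fun a => Con.mk'_surjective _
  choose f hf using hf
  have hg : ∀ b : B, ∃ x : FreeMonoid A, (x : (conGen fun x y => (x, y) ∈ R).Quotient) =
      e.symm ((FreeMonoid.of b : FreeMonoid B) : c.Quotient) :=
    fun b => Con.mk'_surjective _
  choose g hg using hg
  have h1 : c.mk'.comp (FreeMonoid.lift f) =
      e.toMonoidHom.comp (conGen fun x y => (x, y) ∈ R).mk' := by
    apply FreeMonoid.hom_eq
    intro a
    simpa using hf a
  have h2 : (conGen fun x y => (x, y) ∈ R).mk'.comp (FreeMonoid.lift g) =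
      e.symm.toMonoidHom.comp c.mk' := by
    apply FreeMonoid.hom_eq
    intro a
    simpa using hg a
  have h1' : ∀ w, ((FreeMonoid.lift f w : FreeMonoid B) : c.Quotient) =
      e ((w : FreeMonoid A) : (conGen fun x y => (x, y) ∈ R).Quotient) :=
    fun w => DFunLike.congr_fun h1 w
  have h2' : ∀ w, ((FreeMonoid.lift g w : FreeMonoid A) :
      (conGen fun x y => (x, y) ∈ R).Quotient) = e.symm ((w : FreeMonoid B) : c.Quotient) :=
    fun w => DFunLike.congr_fun h2 w
  refine ⟨(fun x : FreeMonoid A × FreeMonoid A =>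
      (FreeMonoid.lift f x.1, FreeMonoid.lift f x.2)) '' R ∪
    Set.range fun b : B => (FreeMonoid.of b, FreeMonoid.lift f (FreeMonoid.lift g (FreeMonoid.of b))),
    (hR.image _).union (Set.finite_range _), ?_⟩
  set S : Set (FreeMonoid B × FreeMonoid B) := (fun x : FreeMonoid A × FreeMonoid A =>
      (FreeMonoid.lift f x.1, FreeMonoid.lift f x.2)) '' R ∪
    Set.range fun b : B => (FreeMonoid.of b, FreeMonoid.lift f (FreeMonoid.lift g (FreeMonoid.of b)))
    with hS
  apply le_antisymm
  · rw [Con.conGen_le]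
    intro x y hxy
    rcases hxy with ⟨z, hz, hz2⟩ | ⟨b, hb⟩
    · simp only [Prod.mk.injEq] at hz2
      rw [← hz2.1, ← hz2.2, ← c.eq, h1', h1']
      congr 1
      rw [Con.eq]
      exact ConGen.Rel.of _ _ hz
    · simp only [Prod.mk.injEq] at hb
      rw [← hb.1, ← hb.2, ← c.eq, h1', h2', MulEquiv.apply_symm_apply]
  · intro u v huv
    have hle : (conGen fun x y => (x, y) ∈ R) ≤
        Con.comap (FreeMonoid.lift f) (map_mul _) (conGen fun x y => (x, y) ∈ S) := by
      rw [Con.conGen_le]
      intro x y hxy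
      exact ConGen.Rel.of _ _ (Or.inl ⟨(x, y), hxy, rfl⟩)
    have hid : ∀ w, (conGen fun x y => (x, y) ∈ S) w
        (FreeMonoid.lift f (FreeMonoid.lift g w)) := by
      have h3 : (conGen fun x y => (x, y) ∈ S).mk' =
          ((conGen fun x y => (x, y) ∈ S).mk'.comp (FreeMonoid.lift f)).comp
            (FreeMonoid.lift g) := by
        apply FreeMonoid.hom_eq
        intro b
        change ((FreeMonoid.of b : FreeMonoid B) : (conGen fun x y => (x, y) ∈ S).Quotient) =
          ((FreeMonoid.lift f (FreeMonoid.lift g (FreeMonoid.of b)) : FreeMonoid B) :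
            (conGen fun x y => (x, y) ∈ S).Quotient)
        rw [Con.eq]
        exact ConGen.Rel.of _ _ (Or.inr ⟨b, rfl⟩)
      intro w
      rw [← Con.eq]
      exact DFunLike.congr_fun h3 w
    have h4 : (conGen fun x y => (x, y) ∈ R) (FreeMonoid.lift g u) (FreeMonoid.lift g v) := by
      rw [← Con.eq, h2', h2']
      congr 1
      rw [Con.eq]
      exact huv
    have h5 := hle h4
    rw [Con.comap_rel] at h5
    exact (hid u).trans (h5.trans (hid v).symm)

/-- The congruence used to separate the two words. -/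
def rho (n k : ℕ) : Con (FreeMonoid (Fin n)) where
  r u v := ∀ a b : List ℕ,
    (Cl k (a ++ (u.toList.map Fin.val ++ b)) ↔ Cl k (a ++ (v.toList.map Fin.val ++ b))) ∧
    (Cl k (a ++ (u.toList.map Fin.val ++ b)) →
      (TA (a ++ (u.toList.map Fin.val ++ b)) ↔ TA (a ++ (v.toList.map Fin.val ++ b))))
  iseqv := ⟨fun _ _ _ => ⟨Iff.rfl, fun _ => Iff.rfl⟩,
    fun h a b => ⟨(h a b).1.symm, fun hC => ((h a b).2 ((h a b).1.2 hC)).symm⟩,
    fun h h' a b => ⟨(h a b).1.trans (h' a b).1, fun hC =>
      ((h a b).2 hC).trans ((h' a b).2 ((h a b).1.1 hC))⟩⟩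
  mul' := by
    intro u1 v1 u2 v2 h1 h2 a b
    have e1 := h1 a (u2.toList.map Fin.val ++ b)
    have e2 := h2 (a ++ v1.toList.map Fin.val) b
    simp only [FreeMonoid.toList_mul, List.map_append, List.append_assoc] at e1 e2 ⊢
    exact ⟨e1.1.trans e2.1, fun hC => (e1.2 hC).trans (e2.2 (e1.1.1 hC))⟩

/-- A word over `ℕ` as a word over `Fin n`. -/
def toWord (n : ℕ) (hn : 0 < n) (w : List ℕ) : FreeMonoid (Fin n) :=
  FreeMonoid.ofList (w.map fun x => (⟨x % n, Nat.mod_lt _ hn⟩ : Fin n))

theorem toWord_val {n : ℕ} (hn : 0 < n) {w : List ℕ} (hw : ∀ x ∈ w, x < n) :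
    (toWord n hn w).toList.map Fin.val = w := by
  unfold toWord
  rw [FreeMonoid.toList_ofList, List.map_map]
  conv_rhs => rw [← List.map_id w]
  apply List.map_congr_left
  intro x hx
  exact Nat.mod_eq_of_lt (hw x hx)

theorem toWord_length {n : ℕ} (hn : 0 < n) (w : List ℕ) : (toWord n hn w).length = w.length := by
  unfold toWord
  change (List.map _ w).length = w.length
  rw [List.length_map]

theorem Cl_length {k : ℕ} {w : List ℕ} (h : Cl k w) : w.length = 2 * k + 7 := by
  have h0 := h.c0
  have h1 := h.c1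
  have h2 := h.c2
  have h3 := h.c3
  have h4 := h.c4
  have key : ∀ w : List ℕ, (∀ x ∈ w, x ≤ 4) →
      w.length = w.count 0 + w.count 1 + w.count 2 + w.count 3 + w.count 4 := by
    intro w
    induction w with
    | nil => intro _; rfl
    | cons a w ih =>
      intro hw
      have ha : a ≤ 4 := hw a (by simp)
      have := ih fun x hx => hw x (by simp [hx])
      interval_cases a <;> simp <;> omega
  have := key w h.le4
  omega

theorem main (n : ℕ) (hn : 5 ≤ n) (k : ℕ) (hk : 3 ≤ k) :
    ∃ u v : FreeMonoid (Fin n), u.length = 2 * k + 7 ∧ v.length = 2 * k + 7 ∧ gram n u v ∧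
      ¬ conGen (fun x y : FreeMonoid (Fin n) => gram n x y ∧ x.length < 2 * k + 7) u v := by
  obtain ⟨j, rfl⟩ : ∃ j, k = j + 3 := ⟨k - 3, by omega⟩
  have h0 : 0 < n := by omega
  have eu : (toWord n h0 (uw j)).toList.map Fin.val = uw j :=
    toWord_val h0 fun x hx => lt_of_le_of_lt (uw_le j x hx) (by omega)
  have ev : (toWord n h0 (vw j)).toList.map Fin.val = vw j :=
    toWord_val h0 fun x hx => lt_of_le_of_lt (vw_le j x hx) (by omega)
  refine ⟨toWord n h0 (uw j), toWord n h0 (vw j), ?_, ?_, ?_, ?_⟩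
  · rw [toWord_length, uw_length]; ring
  · rw [toWord_length, vw_length]; ring
  · rw [gram_iff, eu, ev]
    exact G_uv j
  · intro h
    have hle : conGen (fun x y : FreeMonoid (Fin n) => gram n x y ∧ x.length < 2 * (j + 3) + 7) ≤
        rho n (j + 3) := by
      rw [Con.conGen_le]
      rintro x y ⟨hxy, hlen⟩ a b
      rw [gram_iff] at hxy
      have hl : (x.toList.map Fin.val).length < 2 * (j + 3) + 7 := by
        rw [List.length_map]; exact hlen
      refine ⟨⟨fun hC => hC.congr (hxy.ctx a b), fun hC => hC.congr (hxy.symm.ctx a b)⟩, ?_⟩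
      intro hC
      have hC' := hC.congr (hxy.ctx a b)
      by_cases h1 : TA (a ++ (x.toList.map Fin.val ++ b)) <;>
        by_cases h2 : TA (a ++ (y.toList.map Fin.val ++ b))
      · exact ⟨fun _ => h2, fun _ => h1⟩
      · exfalso
        obtain ⟨ha, hb⟩ := key hxy hC h1 h2
        have := Cl_length hC
        rw [ha, hb, List.nil_append, List.append_nil] at this
        omega
      · exfalso
        obtain ⟨ha, hb⟩ := key hxy.symm hC' h2 h1
        have := Cl_length hC
        rw [ha, hb, List.nil_append, List.append_nil] at this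
        omega
      · exact ⟨fun h => absurd h h1, fun h => absurd h h2⟩
    have := hle h [] []
    rw [List.nil_append, List.nil_append, List.append_nil, List.append_nil, eu, ev] at this
    exact TA_v j ((this.2 (Cl_u j)).1 (TA_u j))

theorem not_finitely_generated (n : ℕ) (hn : 5 ≤ n)
    (R : Set (FreeMonoid (Fin n) × FreeMonoid (Fin n))) (hR : R.Finite) :
    conGen (fun x y => (x, y) ∈ R) ≠ gram n := by
  intro h
  obtain ⟨N, hN⟩ := (hR.image fun z => z.1.length).bddAbove
  obtain ⟨u, v, -, -, h1, h2⟩ := main n hn (N + 3) (by omega)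
  apply h2
  have hle : conGen (fun x y => (x, y) ∈ R) ≤
      conGen (fun x y : FreeMonoid (Fin n) => gram n x y ∧ x.length < 2 * (N + 3) + 7) := by
    rw [Con.conGen_le]
    intro x y hxy
    refine ConGen.Rel.of _ _ ⟨?_, ?_⟩
    · rw [← h]
      exact ConGen.Rel.of _ _ hxy
    · have : x.length ≤ N := hN ⟨(x, y), hxy, rfl⟩
      omega
  apply hle
  rw [h]
  exact h1

/-- **The grammic monoid of rank `n` is not finitely presented for every `n ≥ 5`.**
Moreover for every `k ≥ 3` there is a pair of equivalent words of length `2 k + 7` which is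
not a consequence of the relations of the grammic monoid between words of length `< 2 k + 7`. -/
theorem result :
    (∀ n : ℕ, 5 ≤ n → ¬ FinitelyPresented (gram n).Quotient) ∧
    (∀ n : ℕ, 5 ≤ n → ¬ ∃ R : Set (FreeMonoid (Fin n) × FreeMonoid (Fin n)), R.Finite ∧
      conGen (fun x y => (x, y) ∈ R) = gram n) ∧
    (∀ n : ℕ, 5 ≤ n → ∀ k : ℕ, 3 ≤ k → ∃ u v : FreeMonoid (Fin n),
      u.length = 2 * k + 7 ∧ v.length = 2 * k + 7 ∧ gram n u v ∧
      ¬ conGen (fun x y : FreeMonoid (Fin n) => gram n x y ∧ x.length < 2 * k + 7) u v) := by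
  refine ⟨?_, ?_, main⟩
  · intro n hn h
    obtain ⟨S, hS, e⟩ := finite_generation (gram n) h
    exact not_finitely_generated n hn S hS e
  · rintro n hn ⟨R, hR, e⟩
    exact not_finitely_generated n hn R hR e

end Pool.Agent.Results.MP_be768e_al.NotFinitelyPresented
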